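import Pool.Agent.H2.ST.Targets

/-!
Symplectic torus actions (`MP_51eb24_ag`), row PLE: existence of a slice.
-/

set_option autoImplicit false

open Pool.Agent.H2.ST MvPolynomial

namespace Pool.Agent.H75.ST2

theorem C_mem {k : Type} [Field k] {m : ℕ} (K : Subalgebra k (Pol k m)) (c : k) :
    (C c : Pol k m) ∈ K := by
  have := K.algebraMap_mem c
  rwa [MvPolynomial.algebraMap_eq] at this

theorem ple_ind {k : Type} [Field k] [IsAlgClosed k] {m : ℕ} (K : Subalgebra k (Pol k m))
    (φ p : Pol k m) (hP : Pln K φ) (hpc : ¬ ∃ c : k, p = C c)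
    (hmod : ∀ c : k, ∀ g ∈ K, (p - C c) ∣ br p g → ∃ b : k, (p - C c) ∣ (g - C b)) (n : ℕ) :
    ∀ s ∈ K, ∀ Q : Polynomial k, Q.natDegree = n → br p s ≠ 0 →
      br p s = Polynomial.aeval p Q → ∃ s' ∈ K, br p s' = 1 := by
  induction n using Nat.strong_induction_on with
  | _ n ih =>
    intro s hs Q hQn hne hQ
    have hQ0 : Q ≠ 0 := by
      intro h
      rw [h, map_zero] at hQ
      exact hne hQ
    rcases Nat.eq_zero_or_pos n with h0 | hpos
    · rw [h0] at hQn
      obtain ⟨q, hq⟩ : ∃ q : k, Q = Polynomial.C q := ⟨Q.coeff 0,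
        Polynomial.eq_C_of_natDegree_eq_zero hQn⟩
      have hq0 : q ≠ 0 := by
        intro h
        rw [h, map_zero] at hq
        exact hQ0 hq
      refine ⟨q⁻¹ • s, K.smul_mem hs _, ?_⟩
      rw [br_smul, hQ, hq, Polynomial.aeval_C, MvPolynomial.algebraMap_eq, smul_eq_C_mul,
        ← C_mul, inv_mul_cancel₀ hq0, C_1]
    · have hdeg : Q.degree ≠ 0 := by
        intro h
        have := Polynomial.natDegree_eq_of_degree_eq_some (n := 0) h
        omega
      obtain ⟨c, hc⟩ := IsAlgClosed.exists_root Q hdeg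
      obtain ⟨Q1, hQ1⟩ := Polynomial.dvd_iff_isRoot.2 hc
      have hQ10 : Q1 ≠ 0 := by
        intro h
        rw [h, mul_zero] at hQ1
        exact hQ0 hQ1
      have hd1 : Q1.natDegree < n := by
        have h1 := congrArg Polynomial.natDegree hQ1
        rw [Polynomial.natDegree_mul (Polynomial.X_sub_C_ne_zero c) hQ10,
          Polynomial.natDegree_X_sub_C, hQn] at h1
        omega
      have hae : br p s = (p - C c) * Polynomial.aeval p Q1 := by
        rw [hQ, hQ1, map_mul, map_sub, Polynomial.aeval_X, Polynomial.aeval_C,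
          MvPolynomial.algebraMap_eq]
      obtain ⟨b, s1, hs1⟩ := hmod c s hs ⟨_, hae⟩
      have hpc0 : p - C c ≠ 0 := by
        intro h
        exact hpc ⟨c, sub_eq_zero.1 h⟩
      have hbr : br p s = (p - C c) * br p s1 := by
        have h1 : br p s = br p (s - C b) := by rw [br_sub, br_C, sub_zero]
        rw [h1, hs1, br_mul, br_sub, br_C, br_self, sub_zero, mul_zero, add_zero]
      have hs0 : (p - C c) * s1 ≠ 0 := by
        intro h
        rw [h] at hs1
        have h2 : s = C b := sub_eq_zero.1 hs1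
        rw [h2, br_C] at hne
        exact hne rfl
      have hmem : (p - C c) * s1 ∈ K := by
        rw [← hs1]
        exact K.sub_mem hs (C_mem K b)
      have hs1K : s1 ∈ K := (hP.fc _ _ hs0 hmem).2
      have heq : br p s1 = Polynomial.aeval p Q1 := by
        have h3 : (p - C c) * br p s1 = (p - C c) * Polynomial.aeval p Q1 := by
          rw [← hbr, hae]
        exact mul_left_cancel₀ hpc0 h3
      have hne1 : br p s1 ≠ 0 := by
        intro h
        rw [h, mul_zero] at hbr
        exact hne hbr
      exact ih _ hd1 s1 hs1K Q1 rfl hne1 heq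

theorem pf_PLE : T_PLE := by
  intro k _ _ _ m K φ p hP hpK hnil hcen hpc hmod
  -- an element with nonzero bracket
  have h1 : ∃ g ∈ K, br p g ≠ 0 := by
    by_contra hne
    push Not at hne
    obtain ⟨c, hc⟩ := hP.cn p hpK fun g hg => by
      rw [hne g hg]
      exact dvd_zero _
    exact hpc ⟨c, hc⟩
  obtain ⟨g, hg, hgb⟩ := h1
  have hK : ∀ n : ℕ, (br p)^[n] g ∈ K := by
    intro n
    induction n with
    | zero => exact hg
    | succ n ih =>
      rw [Function.iterate_succ_apply']
      exact hP.bk p hpK _ ih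
  obtain ⟨s, hs, hs1, hs2⟩ : ∃ s ∈ K, br p s ≠ 0 ∧ br p (br p s) = 0 := by
    classical
    have hex := hnil g hg
    set n := Nat.find hex with hn
    have hn0 : (br p)^[n] g = 0 := Nat.find_spec hex
    have hmin : ∀ j < n, (br p)^[j] g ≠ 0 := fun j hj => Nat.find_min hex hj
    have hn2 : 2 ≤ n := by
      by_contra hlt
      have h3 : n = 0 ∨ n = 1 := by omega
      rcases h3 with h3 | h3
      · rw [h3] at hn0
        have : g = 0 := hn0
        rw [this, br_zero] at hgb
        exact hgb rfl
      · rw [h3] at hn0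
        exact hgb hn0
    refine ⟨(br p)^[n - 2] g, hK _, ?_, ?_⟩
    · rw [← Function.iterate_succ_apply' (br p)]
      exact hmin _ (by omega)
    · rw [← Function.iterate_succ_apply' (br p), ← Function.iterate_succ_apply' (br p)]
      have : (n - 2).succ.succ = n := by omega
      rw [this]
      exact hn0
  have ha := hcen _ (hP.bk p hpK s hs) hs2
  rw [Algebra.adjoin_singleton_eq_range_aeval] at ha
  obtain ⟨Q, hQ⟩ := ha
  exact ple_ind K φ p hP hpc hmod Q.natDegree s hs Q rfl hs1 hQ.symm

end Pool.Agent.H75.ST2
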