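import Pool.Agent.H2.ST.Targets

/-!
Symplectic torus actions (`MP_51eb24_ag`), row SPG: splitting of the algebra.
-/

set_option autoImplicit false

open Pool.Agent.H2.ST MvPolynomial

namespace Pool.Agent.H75.ST2

section

variable {k : Type} [Field k] {m : ℕ}

theorem iter_smul (r : k) (f : Pol k m) (n : ℕ) (a : Pol k m) :
    (br (r • f))^[n] a = r ^ n • (br f)^[n] a := by
  induction n generalizing a with
  | zero => simp
  | succ n ih =>
    rw [Function.iterate_succ_apply', Function.iterate_succ_apply', ih, smul_br, br_smul,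
      smul_smul, pow_succ, mul_comm]

variable {Γ : Type} [AddCommGroup Γ] (w : Fin m → Γ) (u v : Fin m → Pol k m) (c : Fin m → k)

/-- the scalars -/
def sc : {i // w i ≠ 0} ⊕ {i // w i ≠ 0} → k
  | Sum.inl i => (c i.1)⁻¹
  | Sum.inr i => -(c i.1)⁻¹

/-- the slices -/
def zz : {i // w i ≠ 0} ⊕ {i // w i ≠ 0} → Pol k m
  | Sum.inl i => u i.1
  | Sum.inr i => v i.1

/-- the Hamiltonians -/
noncomputable def GG (s : {i // w i ≠ 0} ⊕ {i // w i ≠ 0}) : Pol k m :=
  sc w c s • zz w u v s.swap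

end

theorem GG_zz {k : Type} [Field k] {m : ℕ} {Γ : Type} [AddCommGroup Γ]
    {W : Γ → Submodule k (Pol k m)}
    {w : Fin m → Γ} {π : Fin m → Γ →+ ℤ} {u v : Fin m → Pol k m} {c : Fin m → k}
    (hS : Spl W w π u v c) (s t : {i // w i ≠ 0} ⊕ {i // w i ≠ 0}) :
    (s = t → br (GG w u v c s) (zz w u v t) = 1) ∧
    (s ≠ t → br (GG w u v c s) (zz w u v t) = 0) := by
  rcases s with i | i <;> rcases t with j | j
  · change (_ → br ((c i.1)⁻¹ • v i.1) (u j.1) = 1) ∧ (_ → br ((c i.1)⁻¹ • v i.1) (u j.1) = 0)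
    refine ⟨fun h => ?_, fun h => ?_⟩
    · have hij : i = j := Sum.inl.inj h
      rw [← hij, smul_br, (hS.par i.1 i.2).vu, smul_eq_C_mul, ← C_mul,
        inv_mul_cancel₀ (hS.par i.1 i.2).hc, C_1]
    · have hij : j.1 ≠ i.1 := by
        intro h2
        exact h (by rw [Subtype.ext h2])
      rw [smul_br, br_anti, hS.uv j.1 i.1 j.2 i.2 hij, neg_zero, smul_zero]
  · change (_ → br ((c i.1)⁻¹ • v i.1) (v j.1) = 1) ∧ (_ → br ((c i.1)⁻¹ • v i.1) (v j.1) = 0)
    refine ⟨fun h => by simp at h, fun _ => ?_⟩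
    rw [smul_br, hS.vv i.1 j.1 i.2 j.2, smul_zero]
  · change (_ → br ((-(c i.1)⁻¹) • u i.1) (u j.1) = 1) ∧
      (_ → br ((-(c i.1)⁻¹) • u i.1) (u j.1) = 0)
    refine ⟨fun h => by simp at h, fun _ => ?_⟩
    rw [smul_br, hS.uu i.1 j.1 i.2 j.2, smul_zero]
  · change (_ → br ((-(c i.1)⁻¹) • u i.1) (v j.1) = 1) ∧
      (_ → br ((-(c i.1)⁻¹) • u i.1) (v j.1) = 0)
    refine ⟨fun h => ?_, fun h => ?_⟩
    · have hij : i = j := Sum.inr.inj h
      rw [← hij, smul_br, br_anti, (hS.par i.1 i.2).vu, neg_smul, smul_neg, neg_neg,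
        smul_eq_C_mul, ← C_mul, inv_mul_cancel₀ (hS.par i.1 i.2).hc, C_1]
    · have hij : i.1 ≠ j.1 := by
        intro h2
        exact h (by rw [Subtype.ext h2])
      rw [smul_br, hS.uv i.1 j.1 i.2 j.2 hij, smul_zero]

theorem GG_const {k : Type} [Field k] {m : ℕ} {Γ : Type} [AddCommGroup Γ]
    {W : Γ → Submodule k (Pol k m)}
    {w : Fin m → Γ} {π : Fin m → Γ →+ ℤ} {u v : Fin m → Pol k m} {c : Fin m → k}
    (hS : Spl W w π u v c) (s t : {i // w i ≠ 0} ⊕ {i // w i ≠ 0}) :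
    ∃ r : k, br (GG w u v c s) (GG w u v c t) = C r := by
  classical
  have h := GG_zz hS s t.swap
  by_cases hst : s = t.swap
  · refine ⟨sc w c t, ?_⟩
    rw [show GG w u v c t = sc w c t • zz w u v t.swap from rfl, br_smul, h.1 hst,
      smul_eq_C_mul, mul_one]
  · refine ⟨0, ?_⟩
    rw [show GG w u v c t = sc w c t • zz w u v t.swap from rfl, br_smul, h.2 hst, smul_zero,
      C_0]

theorem sc_ne {k : Type} [Field k] {m : ℕ} {Γ : Type} [AddCommGroup Γ]
    {W : Γ → Submodule k (Pol k m)}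
    {w : Fin m → Γ} {π : Fin m → Γ →+ ℤ} {u v : Fin m → Pol k m} {c : Fin m → k}
    (hS : Spl W w π u v c) (s : {i // w i ≠ 0} ⊕ {i // w i ≠ 0}) : sc w c s ≠ 0 := by
  rcases s with i | i
  · exact inv_ne_zero (hS.par i.1 i.2).hc
  · exact neg_ne_zero.2 (inv_ne_zero (hS.par i.1 i.2).hc)

theorem pf_SPG (h1 : T_MSL) (h2 : T_TRM) : T_SPG := by
  classical
  intro k _ _ m Γ _ W w π u v c hS hnil
  set D : {i // w i ≠ 0} ⊕ {i // w i ≠ 0} → Derivation k (Pol k m) (Pol k m) :=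
    fun s => ad (GG w u v c s) with hD
  have hDa : ∀ s a, D s a = br (GG w u v c s) a := fun s a => ad_apply _ _
  have hDf : ∀ s, (D s : Pol k m → Pol k m) = br (GG w u v c s) := fun s => funext fun a => hDa s a
  have hcomm : ∀ s t a, D s (D t a) = D t (D s a) := by
    intro s t a
    rw [hDa, hDa, hDa, hDa, jac]
    obtain ⟨r, hr⟩ := GG_const hS s t
    rw [hr, C_br, zero_add]
  have hnilD : ∀ s a, ∃ n : ℕ, (D s)^[n] a = 0 := by
    intro s a
    rcases s with i | i
    · obtain ⟨n, hn⟩ := (hnil i.1 i.2 a).2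
      refine ⟨n, ?_⟩
      rw [hDf]
      change (br ((c i.1)⁻¹ • v i.1))^[n] a = 0
      rw [iter_smul, hn, smul_zero]
    · obtain ⟨n, hn⟩ := (hnil i.1 i.2 a).1
      refine ⟨n, ?_⟩
      rw [hDf]
      change (br ((-(c i.1)⁻¹) • u i.1))^[n] a = 0
      rw [iter_smul, hn, smul_zero]
  have hDz : ∀ s t, D s (zz w u v t) = if s = t then 1 else 0 := by
    intro s t
    rw [hDa]
    by_cases h : s = t
    · rw [if_pos h]
      exact (GG_zz hS s t).1 h
    · rw [if_neg h]
      exact (GG_zz hS s t).2 h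
  have hker : ∀ g, (∀ s, D s g = 0) ↔ g ∈ Cen (act w u v) := by
    intro g
    have hGz : ∀ s, D s g = 0 ↔ br (zz w u v s.swap) g = 0 := by
      intro s
      rw [hDa]
      change br (sc w c s • zz w u v s.swap) g = 0 ↔ _
      rw [smul_br]
      constructor
      · intro h
        exact (smul_eq_zero.1 h).resolve_left (sc_ne hS s)
      · intro h
        rw [h, smul_zero]
    constructor
    · intro h p hp
      obtain ⟨i, hi, hp | hp⟩ := hp
      · have h3 := (hGz (Sum.inr ⟨i, hi⟩)).1 (h _)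
        rw [hp, br_anti]
        rw [show zz w u v (Sum.inr (⟨i, hi⟩ : {i // w i ≠ 0})).swap = u i from rfl] at h3
        rw [h3, neg_zero]
      · have h3 := (hGz (Sum.inl ⟨i, hi⟩)).1 (h _)
        rw [hp, br_anti]
        rw [show zz w u v (Sum.inl (⟨i, hi⟩ : {i // w i ≠ 0})).swap = v i from rfl] at h3
        rw [h3, neg_zero]
    · intro h s
      rw [hGz]
      rcases s with i | i
      · have h3 := h (v i.1) ⟨i.1, i.2, Or.inr rfl⟩
        change br (v i.1) g = 0
        rw [br_anti, h3, neg_zero]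
      · have h3 := h (u i.1) ⟨i.1, i.2, Or.inl rfl⟩
        change br (u i.1) g = 0
        rw [br_anti, h3, neg_zero]
  refine ⟨fun f => ?_, fun n f hf hai => ?_⟩
  · have h3 := h1 k (Pol k m) _ D (zz w u v) hcomm hnilD hDz f
    refine Algebra.adjoin_mono ?_ h3
    rintro g (hg | ⟨s, hs⟩)
    · exact Or.inl ((hker g).1 hg)
    · right
      rw [← hs]
      rcases s with i | i
      · exact ⟨i.1, i.2, Or.inl rfl⟩
      · exact ⟨i.1, i.2, Or.inr rfl⟩
  · have h3 := h2 k m n _ D (zz w u v) f hnilD hDz (fun s l => (hker (f l)).2 (hf l) s) hai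
    rw [Fintype.card_sum] at h3
    rw [Nat.card_eq_fintype_card]
    omega

end Pool.Agent.H75.ST2
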